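import Mathlib
import Pool.Agent.R197.DisjC

/-!
There is a system disjoint from all minimal systems whose generic orbit closures do not have
dense minimal points.
-/

set_option autoImplicit false

open Set Topology

namespace Pool.Agent.Results.MP_e6b6d5_an.GenericOrbitClosures

universe u

/-- A map is minimal if it has no proper nonempty closed invariant set. -/
def MinimalSystem {Y : Type*} [TopologicalSpace Y] (S : Y → Y) : Prop :=
  ∀ A : Set Y, IsClosed A → A.Nonempty → MapsTo S A A → A = univ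

/-- The closure of the forward orbit of a point. -/
def OrbitClosure {X : Type*} [TopologicalSpace X] (T : X → X) (x : X) : Set X :=
  closure (range fun n : ℕ => T^[n] x)

/-- A point is minimal if its orbit closure has no proper nonempty closed invariant subset. -/
def MinimalPoint {X : Type*} [TopologicalSpace X] (T : X → X) (x : X) : Prop :=
  ∀ B ⊆ OrbitClosure T x, IsClosed B → B.Nonempty → MapsTo T B B → B = OrbitClosure T x

/-- The minimal points which lie in the set `Z` are dense in `Z`. -/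
def DenseMinimalPoints {X : Type*} [TopologicalSpace X] (T : X → X) (Z : Set X) : Prop :=
  Z ⊆ closure {y | y ∈ Z ∧ MinimalPoint T y}

/-- Joinings of two systems. -/
def Joining {X Y : Type*} [TopologicalSpace X] [TopologicalSpace Y] (T : X → X) (S : Y → Y)
    (J : Set (X × Y)) : Prop :=
  IsClosed J ∧ J.Nonempty ∧ (∀ q ∈ J, (T q.1, S q.2) ∈ J) ∧
    Prod.fst '' J = univ ∧ Prod.snd '' J = univ

/-- The full product is the only joining. -/
def DisjointSystems {X Y : Type*} [TopologicalSpace X] [TopologicalSpace Y] (T : X → X)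
    (S : Y → Y) : Prop := ∀ J : Set (X × Y), Joining T S J → J = univ

theorem result :
    ∃ (X : Type) (_ : MetricSpace X) (_ : CompactSpace X) (T : X → X),
      Continuous T ∧ Function.Surjective T ∧
      (∀ (Y : Type u) [MetricSpace Y] [CompactSpace Y] [Nonempty Y] (S : Y → Y),
        Continuous S → Function.Surjective S → MinimalSystem S → DisjointSystems T S) ∧
      (∃ G : Set X, IsGδ G ∧ Dense G ∧ ∀ x ∈ G, ¬ DenseMinimalPoints T (OrbitClosure T x)) ∧
      ¬ ∃ Ω : Set X, IsGδ Ω ∧ Dense Ω ∧ ∀ x ∈ Ω, DenseMinimalPoints T (OrbitClosure T x) := by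
  let m : MetricSpace R197.Disj.XX := TopologicalSpace.metrizableSpaceMetric R197.Disj.XX
  have hcs : CompactSpace R197.Disj.XX := isCompact_iff_compactSpace.1 R197.Disj.XX_compact
  have hG : ∀ x ∈ R197.Disj.GG,
      ¬ DenseMinimalPoints R197.Disj.T (OrbitClosure R197.Disj.T x) :=
    fun x hx => R197.Disj.generic_fail x hx
  refine ⟨R197.Disj.XX, m, hcs, R197.Disj.T, R197.Disj.continuous_T, R197.Disj.surjective_T,
    ?_, ⟨R197.Disj.GG, R197.Disj.gdelta_GG, R197.Disj.dense_GG, hG⟩, ?_⟩
  · intro Y _ _ _ S _ _ hmin J hJ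
    obtain ⟨hJc, hJne, hJm, hJX, hJY⟩ := hJ
    have hcl : IsClosed ((fun q : R197.Disj.XX × Y => ((q.1 : R197.Disj.EE), q.2)) '' J) := by
      apply IsCompact.isClosed
      apply hJc.isCompact.image
      fun_prop
    have hmain := R197.Disj.disj S hmin
      ((fun q : R197.Disj.XX × Y => ((q.1 : R197.Disj.EE), q.2)) '' J) hcl
      (by
        rintro _ ⟨q, hq, rfl⟩
        exact ⟨_, hJm q hq, rfl⟩)
      (by
        intro z hz
        have h1 : (⟨z, hz⟩ : R197.Disj.XX) ∈ Prod.fst '' J := by rw [hJX]; trivial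
        obtain ⟨q, hq, hq1⟩ := h1
        refine ⟨q.2, q, hq, ?_⟩
        show ((q.1 : R197.Disj.EE), q.2) = (z, q.2)
        rw [hq1])
    ext ⟨z, y⟩
    simp only [mem_univ, iff_true]
    obtain ⟨q, hq, hq1⟩ := hmain z.1 z.2 y
    have h2 : q = (z, y) := by
      have h3 := congrArg Prod.fst hq1
      have h4 := congrArg Prod.snd hq1
      exact Prod.ext (Subtype.ext h3) h4
    rwa [← h2]
  · rintro ⟨Ω, hΩ1, hΩ2, hΩ3⟩
    have hd : Dense (Ω ∩ R197.Disj.GG) :=
      hΩ2.inter_of_Gδ hΩ1 R197.Disj.gdelta_GG R197.Disj.dense_GG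
    have hne : Nonempty R197.Disj.XX :=
      ⟨⟨R197.Disj.emb (fun _ => true, ⟨1, by norm_num⟩) 0, R197.Disj.emb_mem _ _⟩⟩
    obtain ⟨x, hx1, hx2⟩ := hd.nonempty
    exact hG x hx2 (hΩ3 x hx1)

end Pool.Agent.Results.MP_e6b6d5_an.GenericOrbitClosures
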